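import Pool.Agent.X297.GR.Limit

/-!
# Closed walks on lattices with signs
-/

open MeasureTheory Complex Finset Filter Topology

namespace Pool.Agent.X297.GR

variable {r : ℕ} {ι : Type*} [Fintype ι]

open Classical in
/-- The number of closed walks of length `n` with product of signs one. -/
noncomputable def evenWalks (u : ι → Fin r → ℤ) (s : ι → ℤˣ) (n : ℕ) : ℕ :=
  (Finset.univ.filter fun w : Fin n → ι => ∑ k, u (w k) = 0 ∧ ∏ k, s (w k) = 1).card

/-- the signs as complex numbers -/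
noncomputable def sg (s : ι → ℤˣ) (i : ι) : ℂ := (((s i : ℤˣ) : ℤ) : ℂ)

omit [Fintype ι] in
lemma prod_sg (s : ι → ℤˣ) {n : ℕ} (w : Fin n → ι) :
    ∏ k, sg s (w k) = (((∏ k, s (w k) : ℤˣ) : ℤ) : ℂ) := by
  unfold sg
  push_cast
  rfl

lemma evenWalks_eq (u : ι → Fin r → ℤ) (s : ι → ℤˣ) (n : ℕ) :
    (evenWalks u s n : ℂ) = (walks u 1 n + walks u (sg s) n) / 2 := by
  classical
  rw [walks, walks, ← Finset.sum_add_distrib, evenWalks, Finset.card_filter, Finset.sum_div]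
  push_cast
  refine Finset.sum_congr rfl fun w _ => ?_
  rw [prod_sg]
  by_cases h1 : ∑ k, u (w k) = 0
  · rcases Int.units_eq_one_or (∏ k, s (w k)) with h2 | h2
    · rw [if_pos ⟨h1, h2⟩, if_pos h1, if_pos h1, h2]
      simp
    · have h3 : ¬ (∑ k, u (w k) = 0 ∧ ∏ k, s (w k) = 1) := by
        rintro ⟨-, h⟩
        rw [h2] at h
        exact absurd h (by decide)
      rw [if_neg h3, if_pos h1, if_pos h1, h2]
      simp
  · rw [if_neg (fun h => h1 h.1), if_neg h1, if_neg h1]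
    simp

lemma walks_zero : ∫ θ : Fin r → ℝ, (cub θ : ℂ) = 1 := by
  have h := int_ex (r := r) 0
  rw [if_pos rfl] at h
  simpa [ex_zero] using h

lemma int_cub : ∫ θ : Fin r → ℝ, cub θ = 1 := by
  have h : ((∫ θ : Fin r → ℝ, cub θ : ℝ) : ℂ) = ∫ θ : Fin r → ℝ, ((cub θ : ℝ) : ℂ) :=
    integral_ofReal.symm
  rw [walks_zero] at h
  exact_mod_cast h

/-- The signed count is exponentially smaller if there is a closed walk of sign `-1`. -/
lemma signed_small (u : ι → Fin r → ℤ) (s : ι → ℤˣ) (i₀ : ι) (h₀ : u i₀ = 0) (hs₀ : s i₀ = 1)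
    {n₀ : ℕ} (w₀ : Fin n₀ → ι) (h1 : ∑ k, u (w₀ k) = 0) (h2 : ∏ k, s (w₀ k) = -1) :
    Tendsto (fun n : ℕ => (Real.sqrt n : ℂ) ^ r *
      (walks u (sg s) n / (Fintype.card ι : ℂ) ^ n)) atTop (𝓝 0) := by
  set b : ℝ := (Fintype.card ι : ℝ) with hb
  have hb0 : 0 < b := by
    rw [hb]
    exact_mod_cast Fintype.card_pos_iff.2 ⟨i₀⟩
  have hn₀ : 0 < n₀ := by
    rcases Nat.eq_zero_or_pos n₀ with h | h
    · subst h
      rw [Finset.univ_eq_empty, Finset.prod_empty] at h2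
      exact absurd h2 (by decide)
    · exact h
  have hn₀R : (0 : ℝ) < n₀ := by exact_mod_cast hn₀
  have hz : ∀ θ i, ‖sg s i * ex (u i) θ‖ = 1 := by
    intro θ i
    rw [norm_mul, norm_ex, mul_one, sg]
    rcases Int.units_eq_one_or (s i) with h | h <;> rw [h] <;> simp
  have key : ∀ θ : Fin r → ℝ, ‖cs u (sg s) θ‖ ^ 2 ≤ b ^ 2 - 4 / (n₀ : ℝ) ^ 2 := by
    intro θ
    have e1 := norm_sum_sq (z := fun i => sg s i * ex (u i) θ) (hz θ) i₀ (by
      rw [h₀, ex_zero, sg, hs₀]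
      simp)
    have e2 : ∏ k, (sg s (w₀ k) * ex (u (w₀ k)) θ) = -1 := by
      rw [Finset.prod_mul_distrib, prod_sg, h2, ← ex_sum, h1, ex_zero]
      simp
    have e3 := norm_one_sub_prod (Finset.univ : Finset (Fin n₀))
      (z := fun k => sg s (w₀ k) * ex (u (w₀ k)) θ) (fun k _ => hz θ _)
    rw [e2] at e3
    have e4 : ‖(1 : ℂ) - -1‖ = 2 := by norm_num
    rw [e4] at e3
    obtain ⟨k, hk⟩ : ∃ k, 2 / (n₀ : ℝ) ≤ ‖1 - sg s (w₀ k) * ex (u (w₀ k)) θ‖ := by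
      by_contra hcon
      push Not at hcon
      have e5 : ∑ k : Fin n₀, ‖1 - sg s (w₀ k) * ex (u (w₀ k)) θ‖ < ∑ _k : Fin n₀, 2 / (n₀ : ℝ) :=
        Finset.sum_lt_sum_of_nonempty ⟨⟨0, hn₀⟩, Finset.mem_univ _⟩ fun k _ => hcon k
      rw [Finset.sum_const, Finset.card_univ, Fintype.card_fin, nsmul_eq_mul] at e5
      have e6 : (n₀ : ℝ) * (2 / n₀) = 2 := by field_simp
      linarith
    have e5 : 2 / (n₀ : ℝ) ^ 2 ≤ ∑ i, (1 - (sg s i * ex (u i) θ).re) := by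
      have e6 : 1 - (sg s (w₀ k) * ex (u (w₀ k)) θ).re ≤
          ∑ i, (1 - (sg s i * ex (u i) θ).re) :=
        Finset.single_le_sum (f := fun i => 1 - (sg s i * ex (u i) θ).re)
          (fun i _ => one_sub_re_nonneg (hz θ i)) (Finset.mem_univ (w₀ k))
      refine le_trans ?_ e6
      rw [one_sub_re (hz θ _)]
      have e7 : (2 / (n₀ : ℝ)) ^ 2 ≤ ‖1 - sg s (w₀ k) * ex (u (w₀ k)) θ‖ ^ 2 :=
        pow_le_pow_left₀ (by positivity) hk 2
      have e8 : (2 / (n₀ : ℝ)) ^ 2 = 2 * (2 / (n₀ : ℝ) ^ 2) := by ring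
      linarith
    have e6 : cs u (sg s) θ = ∑ i, sg s i * ex (u i) θ := rfl
    rw [e6]
    have e7 : (4 : ℝ) / (n₀ : ℝ) ^ 2 = 2 * (2 / (n₀ : ℝ) ^ 2) := by ring
    linarith
  set ρ : ℝ := Real.sqrt (1 - 4 / ((n₀ : ℝ) ^ 2 * b ^ 2)) with hρ
  have hρ1 : ρ < 1 := by
    rw [hρ, Real.sqrt_lt' one_pos]
    have : 0 < 4 / ((n₀ : ℝ) ^ 2 * b ^ 2) := by positivity
    linarith
  have hρ0 : 0 ≤ ρ := Real.sqrt_nonneg _
  have hcs : ∀ θ : Fin r → ℝ, ‖cs u (sg s) θ‖ ≤ b * ρ := by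
    intro θ
    have e1 : b ^ 2 - 4 / (n₀ : ℝ) ^ 2 = b ^ 2 * (1 - 4 / ((n₀ : ℝ) ^ 2 * b ^ 2)) := by
      field_simp
    have e2 : ‖cs u (sg s) θ‖ = Real.sqrt (‖cs u (sg s) θ‖ ^ 2) :=
      (Real.sqrt_sq (norm_nonneg _)).symm
    rw [e2, hρ, ← Real.sqrt_sq hb0.le, ← Real.sqrt_mul (by positivity), Real.sqrt_sq hb0.le, ← e1]
    exact Real.sqrt_le_sqrt (key θ)
  have hw : ∀ n : ℕ, ‖walks u (sg s) n / (Fintype.card ι : ℂ) ^ n‖ ≤ ρ ^ n := by
    intro n
    rw [norm_div, norm_pow, Complex.norm_natCast, div_le_iff₀ (by positivity), walks_eq]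
    refine (norm_integral_le_integral_norm _).trans ?_
    have e1 : ∫ θ : Fin r → ℝ, ‖(cub θ : ℂ) * cs u (sg s) θ ^ n‖ ≤
        ∫ θ : Fin r → ℝ, cub θ * (b * ρ) ^ n := by
      refine integral_mono_of_nonneg (Eventually.of_forall fun _ => norm_nonneg _)
        (integrable_cub.mul_const _) (Eventually.of_forall fun θ => ?_)
      simp only
      rw [norm_mul, norm_real, Real.norm_eq_abs, abs_of_nonneg (cub_nonneg _), norm_pow]
      exact mul_le_mul_of_nonneg_left (pow_le_pow_left₀ (norm_nonneg _) (hcs θ) n) (cub_nonneg _)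
    refine e1.trans ?_
    rw [integral_mul_const, int_cub, one_mul, mul_pow, mul_comm]
  rw [tendsto_zero_iff_norm_tendsto_zero]
  have hlim : Tendsto (fun n : ℕ => (n : ℝ) ^ r * ρ ^ n) atTop (𝓝 0) :=
    tendsto_pow_const_mul_const_pow_of_abs_lt_one r (by rw [abs_of_nonneg hρ0]; exact hρ1)
  refine squeeze_zero' (Eventually.of_forall fun _ => norm_nonneg _) ?_ hlim
  filter_upwards [eventually_ge_atTop 1] with n hn
  rw [norm_mul, norm_pow, norm_real, Real.norm_eq_abs, abs_of_nonneg (Real.sqrt_nonneg _)]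
  have e1 : Real.sqrt n ≤ n := by
    rw [Real.sqrt_le_left (by positivity)]
    have : (1 : ℝ) ≤ n := by exact_mod_cast hn
    nlinarith
  exact mul_le_mul (pow_le_pow_left₀ (Real.sqrt_nonneg _) e1 r) (hw n) (norm_nonneg _)
    (by positivity)

/-- **The number of closed walks of sign one.** -/
theorem evenWalks_tendsto (u : ι → Fin r → ℤ) (s : ι → ℤˣ) (i₀ : ι) (h₀ : u i₀ = 0)
    (hs₀ : s i₀ = 1) (hspan : Submodule.span ℤ (Set.range u) = ⊤) (hsum : ∑ i, u i = 0) :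
    ∃ C : ℝ, 0 < C ∧ Tendsto (fun n : ℕ => Real.sqrt n ^ r *
      ((evenWalks u s n : ℝ) / (Fintype.card ι : ℝ) ^ n)) atTop (𝓝 C) := by
  obtain ⟨C, hC, hlim⟩ := walks_tendsto u i₀ h₀ hspan hsum
  -- from complex to real limits
  have toReal : ∀ D : ℝ, Tendsto (fun n : ℕ => (Real.sqrt n : ℂ) ^ r *
      ((evenWalks u s n : ℂ) / (Fintype.card ι : ℂ) ^ n)) atTop (𝓝 (D : ℂ)) →
      Tendsto (fun n : ℕ => Real.sqrt n ^ r *
        ((evenWalks u s n : ℝ) / (Fintype.card ι : ℝ) ^ n)) atTop (𝓝 D) := by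
    intro D hD
    have h1 := (continuous_re.tendsto _).comp hD
    rw [ofReal_re] at h1
    refine h1.congr fun n => ?_
    simp only [Function.comp_apply]
    rw [← ofReal_re (Real.sqrt n ^ r * ((evenWalks u s n : ℝ) / (Fintype.card ι : ℝ) ^ n))]
    congr 1
    push_cast
    rfl
  by_cases hcase : ∃ (n₀ : ℕ) (w₀ : Fin n₀ → ι), ∑ k, u (w₀ k) = 0 ∧ ∏ k, s (w₀ k) = -1
  · obtain ⟨n₀, w₀, h1, h2⟩ := hcase
    have h3 := signed_small u s i₀ h₀ hs₀ w₀ h1 h2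
    refine ⟨C / 2, by positivity, toReal _ ?_⟩
    have h4 := (hlim.add h3).div_const 2
    rw [add_zero] at h4
    push_cast
    refine h4.congr fun n => ?_
    rw [evenWalks_eq]
    ring
  · push Not at hcase
    refine ⟨C, hC, toReal _ (hlim.congr fun n => ?_)⟩
    have h1 : walks u (sg s) n = walks u 1 n := by
      rw [walks, walks]
      refine Finset.sum_congr rfl fun w _ => ?_
      by_cases h : ∑ k, u (w k) = 0
      · rw [if_pos h, if_pos h, prod_sg]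
        rcases Int.units_eq_one_or (∏ k, s (w k)) with h2 | h2
        · rw [h2]
          simp
        · exact absurd h2 (hcase n w h)
      · rw [if_neg h, if_neg h]
    rw [evenWalks_eq, h1]
    ring

end Pool.Agent.X297.GR
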