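import Mathlib

/-!
# Finitely generated abelian groups modulo torsion
-/

namespace Pool.Agent.X297.GR

/-- The coordinates modulo torsion of the members of a finite family in an abelian group. -/
theorem exists_lattice {A ι : Type*} [AddCommGroup A] [Finite ι] (a : ι → A) {r : ℕ}
    (hr : Module.finrank ℤ (Submodule.span ℤ (Set.range a)) = r) :
    ∃ u : ι → Fin r → ℤ, Submodule.span ℤ (Set.range u) = ⊤ ∧
      ∀ (κ : Type) [Fintype κ] (w : κ → ι), ∑ k, u (w k) = 0 ↔
        ∃ m : ℕ, 0 < m ∧ m • ∑ k, a (w k) = 0 := by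
  classical
  set M : Submodule ℤ A := Submodule.span ℤ (Set.range a) with hM
  have hfin : Module.Finite ℤ M := Module.Finite.span_of_finite ℤ (Set.finite_range a)
  set T : Submodule ℤ M := Submodule.torsion ℤ M with hT
  have hfree : Module.Free ℤ (M ⧸ T) := inferInstance
  have hrank : Module.finrank ℤ (M ⧸ T) = r := by
    rw [← hr]
    unfold Module.finrank
    rw [rank_quotient_eq_of_le_torsion le_rfl]
  let B : Module.Basis (Fin r) ℤ (M ⧸ T) := (Module.finBasis ℤ (M ⧸ T)).reindex (finCongr hrank)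
  let L : M →ₗ[ℤ] (Fin r → ℤ) := B.equivFun.toLinearMap ∘ₗ T.mkQ
  have hL : Function.Surjective L := B.equivFun.surjective.comp T.mkQ_surjective
  have hker : ∀ x : M, L x = 0 ↔ ∃ m : ℕ, 0 < m ∧ m • x = 0 := by
    intro x
    have h1 : L x = 0 ↔ x ∈ T := by
      change B.equivFun (T.mkQ x) = 0 ↔ _
      rw [LinearEquiv.map_eq_zero_iff, Submodule.mkQ_apply, Submodule.Quotient.mk_eq_zero]
    rw [h1, hT, Submodule.mem_torsion_iff]
    constructor
    · rintro ⟨c, hc⟩
      refine ⟨(c : ℤ).natAbs, Int.natAbs_pos.2 (nonZeroDivisors.coe_ne_zero c), ?_⟩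
      have h2 : (c : ℤ) • x = 0 := hc
      rcases Int.natAbs_eq (c : ℤ) with h | h
      · rw [h] at h2
        rw [← natCast_zsmul]
        exact h2
      · rw [h, neg_smul, neg_eq_zero] at h2
        rw [← natCast_zsmul]
        exact h2
    · rintro ⟨m, hm, h⟩
      refine ⟨⟨(m : ℤ), mem_nonZeroDivisors_of_ne_zero (by exact_mod_cast hm.ne')⟩, ?_⟩
      change (m : ℤ) • x = 0
      rw [natCast_zsmul]
      exact h
  have hmem : ∀ i, a i ∈ M := fun i => Submodule.subset_span ⟨i, rfl⟩
  refine ⟨fun i => L ⟨a i, hmem i⟩, ?_, ?_⟩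
  · have h1 : Submodule.span ℤ (Set.range fun i => (⟨a i, hmem i⟩ : M)) = ⊤ := by
      rw [eq_top_iff]
      rintro ⟨x, hx⟩ -
      have h2 : ∀ y (hy : y ∈ M), (⟨y, hy⟩ : M) ∈
          Submodule.span ℤ (Set.range fun i => (⟨a i, hmem i⟩ : M)) := by
        intro y hy
        induction hy using Submodule.span_induction with
        | mem y hy =>
          obtain ⟨i, rfl⟩ := hy
          exact Submodule.subset_span ⟨i, rfl⟩
        | zero => exact Submodule.zero_mem _
        | add y z hy hz h h' => exact Submodule.add_mem _ h h'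
        | smul c y hy h => exact Submodule.smul_mem _ c h
      exact h2 x hx
    have h2 : Set.range (fun i => L ⟨a i, hmem i⟩) =
        L '' (Set.range fun i => (⟨a i, hmem i⟩ : M)) := by
      rw [← Set.range_comp]
      rfl
    rw [h2, Submodule.span_image, h1, Submodule.map_top, LinearMap.range_eq_top]
    exact hL
  · intro κ _ w
    rw [← map_sum, hker]
    refine exists_congr fun m => and_congr Iff.rfl ?_
    rw [← Subtype.coe_injective.eq_iff]
    simp

end Pool.Agent.X297.GR
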