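import Pool.Agent.X297.GR.Four

/-!
# Closed walks on lattices: bounds for the characters
-/

open MeasureTheory Complex Finset

namespace Pool.Agent.X297.GR

variable {r : ℕ} {ι : Type*} [Fintype ι]

lemma one_sub_re {z : ℂ} (hz : ‖z‖ = 1) : 1 - z.re = ‖1 - z‖ ^ 2 / 2 := by
  have h1 : ‖z‖ ^ 2 = z.re * z.re + z.im * z.im := by
    rw [← normSq_eq_norm_sq, normSq_apply]
  have h2 : ‖1 - z‖ ^ 2 = (1 - z.re) * (1 - z.re) + z.im * z.im := by
    rw [← normSq_eq_norm_sq, normSq_apply]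
    simp
  rw [h2]
  rw [hz] at h1
  nlinarith

lemma one_sub_re_nonneg {z : ℂ} (hz : ‖z‖ = 1) : 0 ≤ 1 - z.re := by
  rw [one_sub_re hz]
  positivity

/-- A sum of complex numbers of absolute value one, one of which is one. -/
lemma norm_sum_sq {z : ι → ℂ} (hz : ∀ i, ‖z i‖ = 1) (i₀ : ι) (h₀ : z i₀ = 1) :
    ‖∑ i, z i‖ ^ 2 ≤ (Fintype.card ι : ℝ) ^ 2 - 2 * ∑ i, (1 - (z i).re) := by
  classical
  set S : ℂ := ∑ i ∈ Finset.univ.erase i₀, z i with hS
  have e1 : ∑ i, z i = 1 + S := by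
    rw [← h₀, hS, Finset.add_sum_erase _ _ (Finset.mem_univ i₀)]
  have hc : ((Finset.univ.erase i₀).card : ℝ) = Fintype.card ι - 1 := by
    rw [Finset.card_erase_of_mem (Finset.mem_univ _), Finset.card_univ, Nat.cast_sub, Nat.cast_one]
    exact Fintype.card_pos_iff.2 ⟨i₀⟩
  have e2 : ‖S‖ ≤ Fintype.card ι - 1 := by
    refine (norm_sum_le _ _).trans ?_
    rw [← hc]
    simp [hz]
  have e3 : S.re = (Fintype.card ι - 1) - ∑ i, (1 - (z i).re) := by
    have h1 : ∑ i, (1 - (z i).re) = ∑ i ∈ Finset.univ.erase i₀, (1 - (z i).re) := by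
      rw [← Finset.add_sum_erase _ _ (Finset.mem_univ i₀), h₀]
      simp
    rw [h1, Finset.sum_sub_distrib, Finset.sum_const, nsmul_eq_mul, mul_one, hc, hS, re_sum]
    ring
  have e4 : ‖1 + S‖ ^ 2 = 1 + 2 * S.re + ‖S‖ ^ 2 := by
    rw [← normSq_eq_norm_sq, ← normSq_eq_norm_sq, normSq_apply, normSq_apply]
    simp
    ring
  have h5 : ‖S‖ ^ 2 ≤ ((Fintype.card ι : ℝ) - 1) ^ 2 := pow_le_pow_left₀ (norm_nonneg _) e2 2
  rw [e1, e4, e3]
  nlinarith

lemma norm_one_sub_prod {κ : Type*} (s : Finset κ) {z : κ → ℂ} (hz : ∀ i ∈ s, ‖z i‖ = 1) :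
    ‖1 - ∏ i ∈ s, z i‖ ≤ ∑ i ∈ s, ‖1 - z i‖ := by
  classical
  induction s using Finset.induction_on with
  | empty => simp
  | insert i s hi ih =>
    rw [Finset.prod_insert hi, Finset.sum_insert hi]
    have h1 : 1 - z i * ∏ j ∈ s, z j = (1 - z i) + z i * (1 - ∏ j ∈ s, z j) := by ring
    rw [h1]
    refine (norm_add_le _ _).trans ?_
    rw [norm_mul, hz i (Finset.mem_insert_self i s), one_mul]
    gcongr
    exact ih fun j hj => hz j (Finset.mem_insert_of_mem hj)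

lemma norm_one_sub_pow {z : ℂ} (hz : ‖z‖ = 1) (n : ℕ) : ‖1 - z ^ n‖ ≤ n * ‖1 - z‖ := by
  have h := norm_one_sub_prod (Finset.range n) (z := fun _ => z) (fun _ _ => hz)
  simpa using h

lemma norm_one_sub_zpow {z : ℂ} (hz : ‖z‖ = 1) (n : ℤ) : ‖1 - z ^ n‖ ≤ |(n : ℝ)| * ‖1 - z‖ := by
  have hz0 : z ≠ 0 := by
    rintro rfl
    simp at hz
  obtain ⟨m, rfl | rfl⟩ := n.eq_nat_or_neg
  · rw [zpow_natCast]
    simpa using norm_one_sub_pow hz m
  · rw [zpow_neg, zpow_natCast]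
    have h1 : 1 - (z ^ m)⁻¹ = -((z ^ m)⁻¹ * (1 - z ^ m)) := by
      have : z ^ m ≠ 0 := pow_ne_zero _ hz0
      field_simp
      ring
    rw [h1, norm_neg, norm_mul, norm_inv, norm_pow, hz, one_pow, inv_one, one_mul]
    simpa using norm_one_sub_pow hz m

lemma ex_smul (a : ℤ) (m : Fin r → ℤ) (θ : Fin r → ℝ) : ex (a • m) θ = ex m θ ^ a := by
  rw [ex, ex, ← exp_int_mul]
  congr 1
  rw [Finset.mul_sum, Finset.mul_sum, Finset.mul_sum]
  refine Finset.sum_congr rfl fun j _ => ?_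
  rw [Pi.smul_apply, smul_eq_mul]
  push_cast
  ring

/-- The defect. -/
noncomputable def dfct (u : ι → Fin r → ℤ) (θ : Fin r → ℝ) : ℝ := ∑ i, (1 - (ex (u i) θ).re)

lemma dfct_eq (u : ι → Fin r → ℤ) (θ : Fin r → ℝ) :
    2 * dfct u θ = ∑ i, ‖1 - ex (u i) θ‖ ^ 2 := by
  rw [dfct, Finset.mul_sum]
  refine Finset.sum_congr rfl fun i _ => ?_
  rw [one_sub_re (norm_ex _ _)]
  ring

lemma four_le {t : ℝ} (ht : |t| ≤ 1 / 2) : 4 * |t| ≤ ‖1 - exp (2 * Real.pi * I * (t : ℂ))‖ := by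
  have h1 : exp (2 * Real.pi * I * (t : ℂ)) = exp (I * ((2 * Real.pi * t : ℝ) : ℂ)) := by
    congr 1
    push_cast
    ring
  rw [norm_sub_rev, h1, norm_exp_I_mul_ofReal_sub_one]
  have h2 : 2 * Real.pi * t / 2 = Real.pi * t := by ring
  rw [h2, Real.norm_eq_abs, abs_mul, abs_two]
  have h3 : |Real.sin (Real.pi * t)| = Real.sin (Real.pi * |t|) := by
    rcases abs_cases t with ⟨h, h'⟩ | ⟨h, h'⟩
    · rw [h, abs_of_nonneg]
      apply Real.sin_nonneg_of_nonneg_of_le_pi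
      · exact mul_nonneg Real.pi_pos.le h'
      · rw [h] at ht
        nlinarith [Real.pi_pos]
    · rw [h, mul_neg, Real.sin_neg, abs_of_nonpos]
      have h4 : Real.sin (Real.pi * t) = - Real.sin (Real.pi * (-t)) := by
        rw [mul_neg, Real.sin_neg, neg_neg]
      rw [h4]
      have h5 : 0 ≤ Real.sin (Real.pi * (-t)) := by
        apply Real.sin_nonneg_of_nonneg_of_le_pi
        · exact mul_nonneg Real.pi_pos.le (by linarith)
        · rw [h] at ht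
          nlinarith [Real.pi_pos]
      linarith
  rw [h3]
  have h4 := Real.mul_le_sin (x := Real.pi * |t|) (by positivity) (by nlinarith [Real.pi_pos])
  have h5 : 2 / Real.pi * (Real.pi * |t|) = 2 * |t| := by
    field_simp
  rw [h5] at h4
  linarith

lemma ex_single (j : Fin r) (θ : Fin r → ℝ) :
    ex (Pi.single j 1 : Fin r → ℤ) θ = exp (2 * Real.pi * I * (θ j : ℂ)) := by
  classical
  rw [ex]
  congr 2
  rw [Finset.sum_eq_single j]
  · simp
  · intro i _ hi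
    rw [Pi.single_eq_of_ne hi]
    simp
  · intro h
    exact absurd (Finset.mem_univ j) h

/-- The quadratic lower bound for the defect on the cube. -/
theorem dfct_ge (u : ι → Fin r → ℤ) (hspan : Submodule.span ℤ (Set.range u) = ⊤) :
    ∃ c : ℝ, 0 < c ∧ ∀ θ : Fin r → ℝ, (∀ j, |θ j| ≤ 1 / 2) → c * ∑ j, θ j ^ 2 ≤ dfct u θ := by
  classical
  have h1 : ∀ j : Fin r, ∃ a : ι → ℤ, ∑ i, a i • u i = Pi.single j 1 := by
    intro j
    have : (Pi.single j 1 : Fin r → ℤ) ∈ Submodule.span ℤ (Set.range u) := by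
      rw [hspan]; trivial
    exact (Submodule.mem_span_range_iff_exists_fun ℤ).1 this
  choose a ha using h1
  set A : ℝ := 1 + ∑ j, ∑ i, |(a j i : ℝ)| with hA
  have hA1 : 1 ≤ A := by
    rw [hA]
    have : (0 : ℝ) ≤ ∑ j, ∑ i, |(a j i : ℝ)| :=
      Finset.sum_nonneg fun j _ => Finset.sum_nonneg fun i _ => abs_nonneg _
    linarith
  have hAij : ∀ j i, |(a j i : ℝ)| ≤ A := by
    intro j i
    have e1 : |(a j i : ℝ)| ≤ ∑ i, |(a j i : ℝ)| :=
      Finset.single_le_sum (f := fun i => |(a j i : ℝ)|) (fun i _ => abs_nonneg _)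
        (Finset.mem_univ i)
    have e2 : ∑ i, |(a j i : ℝ)| ≤ ∑ j, ∑ i, |(a j i : ℝ)| :=
      Finset.single_le_sum (f := fun j => ∑ i, |(a j i : ℝ)|)
        (fun j _ => Finset.sum_nonneg fun i _ => abs_nonneg _) (Finset.mem_univ j)
    linarith
  set b : ℝ := (Fintype.card ι : ℝ) with hb
  have hb0 : 0 ≤ b := Nat.cast_nonneg _
  have key : ∀ θ : Fin r → ℝ, (∀ j, |θ j| ≤ 1 / 2) → ∀ j,
      8 * θ j ^ 2 ≤ A ^ 2 * b * dfct u θ := by
    intro θ hθ j
    have e1 := four_le (hθ j)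
    rw [← ex_single j θ, ← ha j, ex_sum] at e1
    have e2 := norm_one_sub_prod (Finset.univ : Finset ι) (z := fun i => ex (a j i • u i) θ)
      (fun i _ => norm_ex _ _)
    have e3 : ∑ i, ‖1 - ex (a j i • u i) θ‖ ≤ ∑ i, A * ‖1 - ex (u i) θ‖ := by
      refine Finset.sum_le_sum fun i _ => ?_
      rw [ex_smul]
      refine (norm_one_sub_zpow (norm_ex _ _) _).trans ?_
      exact mul_le_mul_of_nonneg_right (hAij j i) (norm_nonneg _)
    rw [← Finset.mul_sum] at e3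
    have e4 : 4 * |θ j| ≤ A * ∑ i, ‖1 - ex (u i) θ‖ := e1.trans (e2.trans e3)
    have e5 : (∑ i, ‖1 - ex (u i) θ‖) ^ 2 ≤ b * ∑ i, ‖1 - ex (u i) θ‖ ^ 2 := by
      have := sq_sum_le_card_mul_sum_sq (s := (Finset.univ : Finset ι))
        (f := fun i => ‖1 - ex (u i) θ‖)
      rw [Finset.card_univ] at this
      exact this
    rw [← dfct_eq] at e5
    have e6 : (4 * |θ j|) ^ 2 ≤ (A * ∑ i, ‖1 - ex (u i) θ‖) ^ 2 :=
      pow_le_pow_left₀ (by positivity) e4 2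
    rw [mul_pow, mul_pow, sq_abs] at e6
    nlinarith [mul_le_mul_of_nonneg_left e5 (show 0 ≤ A ^ 2 by positivity)]
  refine ⟨8 / (A ^ 2 * (b + 1) * (r + 1)), by positivity, fun θ hθ => ?_⟩
  have hd0 : 0 ≤ dfct u θ := Finset.sum_nonneg fun i _ => one_sub_re_nonneg (norm_ex _ _)
  rw [div_mul_eq_mul_div, div_le_iff₀ (by positivity), Finset.mul_sum]
  calc ∑ j, 8 * θ j ^ 2 ≤ ∑ _j : Fin r, A ^ 2 * b * dfct u θ :=
        Finset.sum_le_sum fun j _ => key θ hθ j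
    _ = r * (A ^ 2 * b * dfct u θ) := by
        rw [Finset.sum_const, Finset.card_univ, Fintype.card_fin, nsmul_eq_mul]
    _ ≤ dfct u θ * (A ^ 2 * (b + 1) * (r + 1)) := by
        have : (0 : ℝ) ≤ r := Nat.cast_nonneg r
        have h1 : 0 ≤ A ^ 2 * dfct u θ := by positivity
        nlinarith [mul_nonneg h1 this, mul_nonneg h1 hb0]

/-- The upper bound for the normalised sum of characters on the cube. -/
theorem norm_cs_le (u : ι → Fin r → ℤ) (i₀ : ι) (h₀ : u i₀ = 0) {c : ℝ}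
    (hc : ∀ θ : Fin r → ℝ, (∀ j, |θ j| ≤ 1 / 2) → c * ∑ j, θ j ^ 2 ≤ dfct u θ)
    (θ : Fin r → ℝ) (hθ : ∀ j, |θ j| ≤ 1 / 2) (n : ℕ) :
    ‖cs u 1 θ / Fintype.card ι‖ ^ n ≤
      Real.exp (-(c / (Fintype.card ι : ℝ) ^ 2) * (n * ∑ j, θ j ^ 2)) := by
  set b : ℝ := (Fintype.card ι : ℝ) with hb
  have hb0 : 0 < b := by
    rw [hb]
    exact_mod_cast Fintype.card_pos_iff.2 ⟨i₀⟩
  have h1 : cs u 1 θ = ∑ i, ex (u i) θ := by
    rw [cs]
    simp
  have h2 := norm_sum_sq (z := fun i => ex (u i) θ) (fun i => norm_ex _ _) i₀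
    (by rw [h₀, ex_zero])
  rw [← h1] at h2
  have h3 : ‖cs u 1 θ / Fintype.card ι‖ ^ 2 ≤
      Real.exp (-(2 * c / b ^ 2) * ∑ j, θ j ^ 2) := by
    rw [norm_div, Complex.norm_natCast, div_pow, div_le_iff₀ (by positivity)]
    have h4 := hc θ hθ
    have h5 := Real.add_one_le_exp (-(2 * c / b ^ 2) * ∑ j, θ j ^ 2)
    have h6 : (-(2 * c / b ^ 2) * ∑ j, θ j ^ 2 + 1) * b ^ 2 =
        b ^ 2 - 2 * (c * ∑ j, θ j ^ 2) := by
      field_simp
      ring
    have h7 : ‖cs u 1 θ‖ ^ 2 ≤ b ^ 2 - 2 * (c * ∑ j, θ j ^ 2) := by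
      refine h2.trans ?_
      have : dfct u θ = ∑ i, (1 - (ex (u i) θ).re) := rfl
      rw [← this]
      linarith
    rw [← h6] at h7
    exact h7.trans (mul_le_mul_of_nonneg_right h5 (by positivity))
  have h4 : ‖cs u 1 θ / Fintype.card ι‖ ≤ Real.exp (-(c / b ^ 2) * ∑ j, θ j ^ 2) := by
    have e1 : Real.exp (-(2 * c / b ^ 2) * ∑ j, θ j ^ 2) =
        Real.exp (-(c / b ^ 2) * ∑ j, θ j ^ 2) ^ 2 := by
      rw [← Real.exp_nat_mul]
      congr 1
      push_cast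
      ring
    rw [e1] at h3
    exact (pow_le_pow_iff_left₀ (norm_nonneg _) (Real.exp_pos _).le two_ne_zero).1 h3
  calc ‖cs u 1 θ / Fintype.card ι‖ ^ n ≤ Real.exp (-(c / b ^ 2) * ∑ j, θ j ^ 2) ^ n :=
        pow_le_pow_left₀ (norm_nonneg _) h4 n
    _ = _ := by
        rw [← Real.exp_nat_mul]
        congr 1
        ring

end Pool.Agent.X297.GR
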