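import Mathlib

/-!
# Closed walks on lattices: the integral formula
-/

open MeasureTheory Complex Finset

namespace Pool.Agent.X297.GR

variable {r : ℕ}

/-- the indicator function of the interval -/
noncomputable def ind (t : ℝ) : ℝ :=
  Set.indicator (Set.Icc (-(1 / 2) : ℝ) (1 / 2)) (fun _ => (1 : ℝ)) t

/-- the indicator function of the cube -/
noncomputable def cub (θ : Fin r → ℝ) : ℝ :=
  ∏ j, ind (θ j)

/-- the character -/
noncomputable def ex (m : Fin r → ℤ) (θ : Fin r → ℝ) : ℂ :=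
  exp (2 * Real.pi * I * ∑ j, (m j : ℂ) * (θ j : ℂ))

lemma ex_add (m m' : Fin r → ℤ) (θ : Fin r → ℝ) : ex (m + m') θ = ex m θ * ex m' θ := by
  rw [ex, ex, ex, ← exp_add]
  congr 1
  rw [← mul_add, ← Finset.sum_add_distrib]
  congr 1
  refine Finset.sum_congr rfl fun j _ => ?_
  rw [Pi.add_apply]
  push_cast
  ring

lemma ex_zero (θ : Fin r → ℝ) : ex 0 θ = 1 := by
  rw [ex]
  simp

lemma ex_sum {ι : Type*} (s : Finset ι) (m : ι → Fin r → ℤ) (θ : Fin r → ℝ) :
    ex (∑ i ∈ s, m i) θ = ∏ i ∈ s, ex (m i) θ := by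
  classical
  induction s using Finset.induction_on with
  | empty => rw [Finset.sum_empty, Finset.prod_empty, ex_zero]
  | insert i s hi ih => rw [Finset.sum_insert hi, Finset.prod_insert hi, ex_add, ih]

lemma norm_ex (m : Fin r → ℤ) (θ : Fin r → ℝ) : ‖ex m θ‖ = 1 := by
  rw [ex]
  have : (2 * Real.pi * I * ∑ j, (m j : ℂ) * (θ j : ℂ)) =
      ((2 * Real.pi * ∑ j, (m j : ℝ) * θ j : ℝ) : ℂ) * I := by
    push_cast
    ring
  rw [this, norm_exp_ofReal_mul_I]

lemma int_one (m : ℤ) : ∫ t : ℝ, ((ind t : ℝ) : ℂ) *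
    exp (2 * Real.pi * I * ((m : ℂ) * (t : ℂ))) = if m = 0 then 1 else 0 := by
  have e1 : ∀ t : ℝ, ((ind t : ℝ) : ℂ) * exp (2 * Real.pi * I * ((m : ℂ) * (t : ℂ))) =
      Set.indicator (Set.Icc (-(1 / 2) : ℝ) (1 / 2))
        (fun t : ℝ => exp (2 * Real.pi * I * ((m : ℂ) * (t : ℂ)))) t := by
    intro t
    unfold ind
    by_cases h : t ∈ Set.Icc (-(1 / 2) : ℝ) (1 / 2)
    · rw [Set.indicator_of_mem h, Set.indicator_of_mem h, ofReal_one, one_mul]
    · rw [Set.indicator_of_notMem h, Set.indicator_of_notMem h, ofReal_zero, zero_mul]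
  simp only [e1]
  rw [integral_indicator measurableSet_Icc, integral_Icc_eq_integral_Ioc,
    ← intervalIntegral.integral_of_le (by norm_num)]
  by_cases hm : m = 0
  · subst hm
    rw [if_pos rfl]
    simp
    norm_num
  · rw [if_neg hm]
    have hc : (2 * Real.pi * I * (m : ℂ)) ≠ 0 := by
      have : (m : ℂ) ≠ 0 := Int.cast_ne_zero.2 hm
      have hpi : (Real.pi : ℂ) ≠ 0 := by exact_mod_cast Real.pi_ne_zero
      simp [this, hpi]
    have e2 : ∀ t : ℝ, exp (2 * Real.pi * I * ((m : ℂ) * (t : ℂ))) =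
        exp (2 * Real.pi * I * (m : ℂ) * (t : ℂ)) := fun t => by rw [← mul_assoc]
    simp only [e2]
    rw [integral_exp_mul_complex hc]
    have e3 : exp (2 * Real.pi * I * (m : ℂ) * ((1 / 2 : ℝ) : ℂ)) =
        exp (2 * Real.pi * I * (m : ℂ) * ((-(1 / 2) : ℝ) : ℂ)) := by
      rw [exp_eq_exp_iff_exists_int]
      refine ⟨m, ?_⟩
      push_cast
      ring
    rw [e3, sub_self, zero_div]

lemma int_ex (m : Fin r → ℤ) : ∫ θ : Fin r → ℝ, (cub θ : ℂ) * ex m θ =
    if m = 0 then 1 else 0 := by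
  have e1 : ∀ θ : Fin r → ℝ, (cub θ : ℂ) * ex m θ =
      ∏ j, (((ind (θ j) : ℝ) : ℂ) * exp (2 * Real.pi * I * ((m j : ℂ) * (θ j : ℂ)))) := by
    intro θ
    rw [Finset.prod_mul_distrib, cub, ex, ← exp_sum, Finset.mul_sum, ofReal_prod]
  simp only [e1]
  rw [integral_fintype_prod_volume_eq_prod (f := fun (j : Fin r) (t : ℝ) =>
    ((ind t : ℝ) : ℂ) * exp (2 * Real.pi * I * ((m j : ℂ) * (t : ℂ))))]
  simp only [int_one]
  by_cases hm : m = 0
  · subst hm
    simp
  · rw [if_neg hm]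
    obtain ⟨j, hj⟩ := Function.ne_iff.1 hm
    refine Finset.prod_eq_zero (Finset.mem_univ j) ?_
    rw [if_neg (show m j ≠ 0 from hj)]

lemma measurable_cub : Measurable (cub (r := r)) := by
  unfold cub ind
  refine Finset.measurable_prod _ fun j _ => ?_
  exact (measurable_const.indicator measurableSet_Icc).comp (measurable_pi_apply j)

lemma cub_eq (θ : Fin r → ℝ) : cub θ = if ∀ j, |θ j| ≤ 1 / 2 then 1 else 0 := by
  unfold cub ind
  by_cases h : ∀ j, |θ j| ≤ 1 / 2
  · rw [if_pos h]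
    refine Finset.prod_eq_one fun j _ => ?_
    rw [Set.indicator_of_mem]
    exact abs_le.1 (h j)
  · rw [if_neg h]
    push Not at h
    obtain ⟨j, hj⟩ := h
    refine Finset.prod_eq_zero (Finset.mem_univ j) ?_
    rw [Set.indicator_of_notMem]
    intro hmem
    exact absurd (abs_le.2 hmem) (not_le.2 hj)

lemma cub_nonneg (θ : Fin r → ℝ) : 0 ≤ cub θ := by
  rw [cub_eq]
  split_ifs <;> norm_num

lemma cub_le_one (θ : Fin r → ℝ) : cub θ ≤ 1 := by
  rw [cub_eq]
  split_ifs <;> norm_num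

lemma integrable_cub : Integrable (fun θ : Fin r → ℝ => (cub θ : ℝ)) := by
  have h := Integrable.fintype_prod (μ := fun _ : Fin r => (volume : Measure ℝ))
    (f := fun (_ : Fin r) (t : ℝ) =>
      Set.indicator (Set.Icc (-(1 / 2) : ℝ) (1 / 2)) (fun _ => (1 : ℝ)) t) (fun j => by
      rw [integrable_indicator_iff measurableSet_Icc]
      exact integrableOn_const (by simp))
  exact h

lemma continuous_ex (m : Fin r → ℤ) : Continuous (ex m) := by
  unfold ex
  fun_prop

lemma integrable_cub_ex (m : Fin r → ℤ) :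
    Integrable (fun θ : Fin r → ℝ => (cub θ : ℂ) * ex m θ) := by
  have h1 : Integrable (fun θ : Fin r → ℝ => ((cub θ : ℝ) : ℂ)) := integrable_cub.ofReal
  refine h1.mono ?_ ?_
  · exact (h1.aestronglyMeasurable.mul (continuous_ex m).aestronglyMeasurable)
  · refine Filter.Eventually.of_forall fun θ => ?_
    rw [norm_mul, norm_ex, mul_one]

variable {ι : Type*} [Fintype ι]

/-- the weighted number of closed walks -/
noncomputable def walks (u : ι → Fin r → ℤ) (s : ι → ℂ) (n : ℕ) : ℂ :=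
  ∑ w : Fin n → ι, if ∑ k, u (w k) = 0 then ∏ k, s (w k) else 0

/-- the weighted sum of the characters -/
noncomputable def cs (u : ι → Fin r → ℤ) (s : ι → ℂ) (θ : Fin r → ℝ) : ℂ :=
  ∑ i, s i * ex (u i) θ

lemma cs_pow (u : ι → Fin r → ℤ) (s : ι → ℂ) (θ : Fin r → ℝ) (n : ℕ) :
    cs u s θ ^ n = ∑ w : Fin n → ι, (∏ k, s (w k)) * ex (∑ k, u (w k)) θ := by
  classical
  rw [cs, Fintype.sum_pow]
  refine Finset.sum_congr rfl fun w _ => ?_
  rw [Finset.prod_mul_distrib, ex_sum]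

theorem walks_eq (u : ι → Fin r → ℤ) (s : ι → ℂ) (n : ℕ) :
    walks u s n = ∫ θ : Fin r → ℝ, (cub θ : ℂ) * cs u s θ ^ n := by
  have e1 : ∀ θ : Fin r → ℝ, (cub θ : ℂ) * cs u s θ ^ n =
      ∑ w : Fin n → ι, (∏ k, s (w k)) * ((cub θ : ℂ) * ex (∑ k, u (w k)) θ) := by
    intro θ
    rw [cs_pow, Finset.mul_sum]
    refine Finset.sum_congr rfl fun w _ => ?_
    ring
  simp only [e1]
  rw [integral_finsetSum]
  · rw [walks]
    refine Finset.sum_congr rfl fun w _ => ?_
    rw [integral_const_mul, int_ex]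
    split_ifs
    · rw [mul_one]
    · rw [mul_zero]
  · intro w _
    exact (integrable_cub_ex _).const_mul _

end Pool.Agent.X297.GR
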