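import Pool.Agent.X297.GR.Bound

/-!
# Closed walks on lattices: the asymptotic formula
-/

open MeasureTheory Complex Finset Filter Topology

namespace Pool.Agent.X297.GR

variable {r : ℕ} {ι : Type*} [Fintype ι]

lemma lim_one (y : ℝ) : Tendsto (fun n : ℕ => (n : ℂ) *
    (exp (2 * Real.pi * I * ((y * (Real.sqrt n)⁻¹ : ℝ) : ℂ)) - 1 -
      2 * Real.pi * I * ((y * (Real.sqrt n)⁻¹ : ℝ) : ℂ))) atTop
    (𝓝 (((-(2 * Real.pi ^ 2 * y ^ 2) : ℝ)) : ℂ)) := by
  set K : ℝ := (2 * Real.pi * |y|) ^ 3 with hK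
  have hsq : Tendsto (fun n : ℕ => Real.sqrt n) atTop atTop :=
    Real.tendsto_sqrt_atTop.comp tendsto_natCast_atTop_atTop
  have hinv : Tendsto (fun n : ℕ => (Real.sqrt n)⁻¹) atTop (𝓝 0) := tendsto_inv_atTop_zero.comp hsq
  have hnz : Tendsto (fun n : ℕ => 2 * Real.pi * |y| * (Real.sqrt n)⁻¹) atTop (𝓝 0) := by
    simpa using hinv.const_mul (2 * Real.pi * |y|)
  have hsmall : ∀ᶠ n : ℕ in atTop, 2 * Real.pi * |y| * (Real.sqrt n)⁻¹ ≤ 1 :=
    (hnz.eventually (gt_mem_nhds zero_lt_one)).mono fun _ h => h.le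
  rw [tendsto_iff_norm_sub_tendsto_zero]
  have hlim : Tendsto (fun n : ℕ => K * (Real.sqrt n)⁻¹) atTop (𝓝 0) := by
    simpa using hinv.const_mul K
  refine squeeze_zero' (Eventually.of_forall fun _ => norm_nonneg _) ?_ hlim
  filter_upwards [hsmall, eventually_gt_atTop 0] with n hn hn0
  have hnpos : (0 : ℝ) < n := by exact_mod_cast hn0
  set z : ℂ := 2 * Real.pi * I * ((y * (Real.sqrt n)⁻¹ : ℝ) : ℂ) with hz
  have hzn : ‖z‖ = 2 * Real.pi * |y| * (Real.sqrt n)⁻¹ := by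
    rw [hz, norm_mul, norm_mul, norm_mul, norm_I, norm_real, norm_real, Real.norm_eq_abs,
      Real.norm_eq_abs, abs_mul, abs_of_pos Real.pi_pos,
      abs_of_nonneg (inv_nonneg.2 (Real.sqrt_nonneg n))]
    simp
    ring
  have hsqn : Real.sqrt n * Real.sqrt n = n := Real.mul_self_sqrt hnpos.le
  have hsqpos : 0 < Real.sqrt n := Real.sqrt_pos.2 hnpos
  have hz2 : (n : ℂ) * (z ^ 2 / 2) = ((-(2 * Real.pi ^ 2 * y ^ 2) : ℝ) : ℂ) := by
    have h1 : ((Real.sqrt n)⁻¹ : ℝ) ^ 2 * n = 1 := by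
      have h0 : Real.sqrt n ^ 2 = n := by rw [sq, hsqn]
      rw [inv_pow, h0]
      field_simp
    have h2 : (((Real.sqrt n)⁻¹ : ℝ) : ℂ) ^ 2 * (n : ℂ) = 1 := by exact_mod_cast h1
    rw [hz]
    push_cast at h2 ⊢
    calc (n : ℂ) * ((2 * (Real.pi : ℂ) * I * ((y : ℂ) * ((Real.sqrt n : ℝ) : ℂ)⁻¹)) ^ 2 / 2)
        = 2 * (Real.pi : ℂ) ^ 2 * (y : ℂ) ^ 2 * (I ^ 2) *
            ((((Real.sqrt n : ℝ) : ℂ)⁻¹) ^ 2 * (n : ℂ)) := by ring
      _ = _ := by rw [h2, I_sq]; ring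
  have hb := exp_bound (x := z) (by rw [hzn]; exact hn) (n := 3) (by norm_num)
  have hsum : ∑ m ∈ Finset.range 3, z ^ m / (m.factorial : ℂ) = 1 + z + z ^ 2 / 2 := by
    simp [Finset.sum_range_succ, Nat.factorial]
  rw [hsum] at hb
  have h3 : (n : ℂ) * (exp z - 1 - z) - ((-(2 * Real.pi ^ 2 * y ^ 2) : ℝ) : ℂ) =
      n * (exp z - (1 + z + z ^ 2 / 2)) := by
    rw [← hz2]
    ring
  rw [h3, norm_mul, norm_natCast]
  have h4 : ‖z‖ ^ 3 * (((3 : ℕ).succ : ℝ) * ((Nat.factorial 3 : ℝ) * ((3 : ℕ) : ℝ))⁻¹) ≤ ‖z‖ ^ 3 := by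
    have : (((3 : ℕ).succ : ℝ) * ((Nat.factorial 3 : ℝ) * ((3 : ℕ) : ℝ))⁻¹) ≤ 1 := by
      norm_num [Nat.factorial]
    have h0 : 0 ≤ ‖z‖ ^ 3 := by positivity
    nlinarith
  calc (n : ℝ) * ‖exp z - (1 + z + z ^ 2 / 2)‖ ≤ n * ‖z‖ ^ 3 :=
        mul_le_mul_of_nonneg_left (hb.trans h4) hnpos.le
    _ = K * (Real.sqrt n)⁻¹ := by
        rw [hzn, hK, mul_pow]
        have h5 : (n : ℝ) * (Real.sqrt n)⁻¹ ^ 3 = (Real.sqrt n)⁻¹ := by
          calc (n : ℝ) * (Real.sqrt n)⁻¹ ^ 3 =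
              (Real.sqrt n * Real.sqrt n) * (Real.sqrt n)⁻¹ ^ 3 := by rw [hsqn]
            _ = _ := by field_simp
        calc (n : ℝ) * ((2 * Real.pi * |y|) ^ 3 * (Real.sqrt n)⁻¹ ^ 3) =
            (2 * Real.pi * |y|) ^ 3 * ((n : ℝ) * (Real.sqrt n)⁻¹ ^ 3) := by ring
          _ = _ := by rw [h5]

/-- the linear forms -/
noncomputable def lin (m : Fin r → ℤ) (η : Fin r → ℝ) : ℝ := ∑ j, (m j : ℝ) * η j

lemma ex_eq (m : Fin r → ℤ) (η : Fin r → ℝ) (t : ℝ) :
    ex m (t • η) = exp (2 * Real.pi * I * ((lin m η * t : ℝ) : ℂ)) := by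
  rw [ex, lin]
  congr 2
  push_cast
  rw [Finset.sum_mul]
  refine Finset.sum_congr rfl fun j _ => ?_
  rw [Pi.smul_apply, smul_eq_mul]
  push_cast
  ring

/-- the quadratic form -/
noncomputable def quad (u : ι → Fin r → ℤ) (η : Fin r → ℝ) : ℝ :=
  2 * Real.pi ^ 2 * ((∑ i, lin (u i) η ^ 2) / Fintype.card ι)

lemma pointwise (u : ι → Fin r → ℤ) (i₀ : ι) (hsum : ∑ i, u i = 0) (η : Fin r → ℝ) :
    Tendsto (fun n : ℕ => (cub ((Real.sqrt n)⁻¹ • η) : ℂ) *
      (cs u 1 ((Real.sqrt n)⁻¹ • η) / Fintype.card ι) ^ n) atTop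
      (𝓝 ((Real.exp (-quad u η) : ℝ) : ℂ)) := by
  set b : ℂ := (Fintype.card ι : ℂ) with hb
  have hb0 : b ≠ 0 := by
    rw [hb]
    exact_mod_cast (Fintype.card_pos_iff.2 ⟨i₀⟩).ne'
  have hsq : Tendsto (fun n : ℕ => Real.sqrt n) atTop atTop :=
    Real.tendsto_sqrt_atTop.comp tendsto_natCast_atTop_atTop
  have hinv : Tendsto (fun n : ℕ => (Real.sqrt n)⁻¹) atTop (𝓝 0) := tendsto_inv_atTop_zero.comp hsq
  -- the cube
  have h1 : ∀ᶠ n : ℕ in atTop, (cub ((Real.sqrt n)⁻¹ • η) : ℂ) = 1 := by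
    have h2 : ∀ j, ∀ᶠ n : ℕ in atTop, |((Real.sqrt n)⁻¹ • η) j| ≤ 1 / 2 := by
      intro j
      have h3 : Tendsto (fun n : ℕ => |((Real.sqrt n)⁻¹ • η) j|) atTop (𝓝 0) := by
        have := (hinv.mul_const (η j)).abs
        simpa using this
      exact (h3.eventually (gt_mem_nhds (by norm_num : (0 : ℝ) < 1 / 2))).mono fun _ h => h.le
    filter_upwards [eventually_all.2 h2] with n hn
    rw [cub_eq, if_pos hn, ofReal_one]
  -- the main term
  have h2 : Tendsto (fun n : ℕ => (n : ℂ) *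
      (cs u 1 ((Real.sqrt n)⁻¹ • η) / b - 1)) atTop (𝓝 ((-quad u η : ℝ) : ℂ)) := by
    have h3 := tendsto_finsetSum (Finset.univ : Finset ι) fun i _ => lim_one (lin (u i) η)
    have h4 := h3.div_const b
    have e1 : (∑ i, ((-(2 * Real.pi ^ 2 * lin (u i) η ^ 2) : ℝ) : ℂ)) / b =
        ((-quad u η : ℝ) : ℂ) := by
      rw [quad, hb]
      push_cast
      rw [Finset.sum_neg_distrib, ← Finset.mul_sum]
      ring
    rw [e1] at h4
    refine h4.congr fun n => ?_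
    have e2 : ∑ i, lin (u i) η = 0 := by
      unfold lin
      rw [Finset.sum_comm]
      refine Finset.sum_eq_zero fun j _ => ?_
      rw [← Finset.sum_mul]
      have h5 := congrFun hsum j
      rw [Finset.sum_apply, Pi.zero_apply] at h5
      have h6 : ∑ i, (u i j : ℝ) = 0 := by exact_mod_cast h5
      rw [h6, zero_mul]
    have e3 : ∑ i, (2 * Real.pi * I * ((lin (u i) η * (Real.sqrt n)⁻¹ : ℝ) : ℂ)) = 0 := by
      rw [← Finset.mul_sum]
      have : ∑ i, ((lin (u i) η * (Real.sqrt n)⁻¹ : ℝ) : ℂ) = 0 := by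
        rw [← ofReal_sum, ← Finset.sum_mul, e2, zero_mul, ofReal_zero]
      rw [this, mul_zero]
    have e4 : cs u 1 ((Real.sqrt n)⁻¹ • η) =
        ∑ i, exp (2 * Real.pi * I * ((lin (u i) η * (Real.sqrt n)⁻¹ : ℝ) : ℂ)) := by
      rw [cs]
      refine Finset.sum_congr rfl fun i _ => ?_
      rw [Pi.one_apply, one_mul, ex_eq]
    rw [e4, ← Finset.mul_sum, Finset.sum_sub_distrib, e3, sub_zero, Finset.sum_sub_distrib,
      Finset.sum_const, Finset.card_univ, nsmul_eq_mul, mul_one, ← hb]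
    field_simp
  have h3 := tendsto_one_add_pow_exp_of_tendsto h2
  rw [ofReal_exp]
  refine h3.congr' ?_
  filter_upwards [h1] with n hn
  rw [hn, one_mul]
  congr 1
  ring

lemma integrable_gauss {κ : ℝ} (hκ : 0 < κ) :
    Integrable (fun η : Fin r → ℝ => Real.exp (-κ * ∑ j, η j ^ 2)) := by
  have h := Integrable.fintype_prod (μ := fun _ : Fin r => (volume : Measure ℝ))
    (f := fun (_ : Fin r) (t : ℝ) => Real.exp (-κ * t ^ 2)) (fun j =>
      integrable_exp_neg_mul_sq hκ)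
  refine h.congr (Eventually.of_forall fun η => ?_)
  simp only
  rw [← Real.exp_sum, Finset.mul_sum]

/-- **The asymptotic formula for the number of closed walks.** -/
theorem walks_tendsto (u : ι → Fin r → ℤ) (i₀ : ι) (h₀ : u i₀ = 0)
    (hspan : Submodule.span ℤ (Set.range u) = ⊤) (hsum : ∑ i, u i = 0) :
    ∃ C : ℝ, 0 < C ∧ Tendsto (fun n : ℕ => (Real.sqrt n : ℂ) ^ r *
      (walks u 1 n / (Fintype.card ι : ℂ) ^ n)) atTop (𝓝 (C : ℂ)) := by
  obtain ⟨c, hc0, hc⟩ := dfct_ge u hspan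
  set b : ℂ := (Fintype.card ι : ℂ) with hb
  have hbR : (0 : ℝ) < Fintype.card ι := by exact_mod_cast Fintype.card_pos_iff.2 ⟨i₀⟩
  have hb0 : b ≠ 0 := by
    rw [hb]
    exact_mod_cast (Fintype.card_pos_iff.2 ⟨i₀⟩).ne'
  set κ : ℝ := c / (Fintype.card ι : ℝ) ^ 2 with hκ
  have hκ0 : 0 < κ := by positivity
  let F : ℕ → (Fin r → ℝ) → ℂ := fun n η => (cub ((Real.sqrt n)⁻¹ • η) : ℂ) *
      (cs u 1 ((Real.sqrt n)⁻¹ • η) / b) ^ n
  have hpt : ∀ η, Tendsto (fun n => F n η) atTop (𝓝 ((Real.exp (-quad u η) : ℝ) : ℂ)) :=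
    fun η => pointwise u i₀ hsum η
  have hbd : ∀ n : ℕ, 0 < n → ∀ η, ‖F n η‖ ≤ Real.exp (-κ * ∑ j, η j ^ 2) := by
    intro n hn η
    have hnpos : (0 : ℝ) < n := by exact_mod_cast hn
    simp only [F]
    rw [norm_mul, norm_real, Real.norm_eq_abs, abs_of_nonneg (cub_nonneg _)]
    by_cases h : ∀ j, |((Real.sqrt n)⁻¹ • η) j| ≤ 1 / 2
    · have h1 := norm_cs_le u i₀ h₀ hc _ h n
      have e1 : (n : ℝ) * ∑ j, ((Real.sqrt n)⁻¹ • η) j ^ 2 = ∑ j, η j ^ 2 := by
        rw [Finset.mul_sum]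
        refine Finset.sum_congr rfl fun j _ => ?_
        rw [Pi.smul_apply, smul_eq_mul, mul_pow, inv_pow, Real.sq_sqrt hnpos.le]
        field_simp
      rw [e1] at h1
      rw [norm_pow]
      calc cub _ * ‖cs u 1 ((Real.sqrt n)⁻¹ • η) / b‖ ^ n
          ≤ 1 * ‖cs u 1 ((Real.sqrt n)⁻¹ • η) / b‖ ^ n :=
            mul_le_mul_of_nonneg_right (cub_le_one _) (by positivity)
        _ ≤ _ := by rw [one_mul]; exact h1
    · rw [cub_eq, if_neg h, zero_mul]
      exact (Real.exp_pos _).le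
  have hmeas : ∀ n, AEStronglyMeasurable (F n) volume := by
    intro n
    apply Measurable.aestronglyMeasurable
    refine Measurable.mul ?_ ?_
    · exact Complex.measurable_ofReal.comp (measurable_cub.comp (by fun_prop))
    · have hcs : Continuous (cs u 1) := by
        unfold cs
        exact continuous_finsetSum _ fun i _ => continuous_const.mul (continuous_ex _)
      have : Continuous fun η : Fin r → ℝ => (cs u 1 ((Real.sqrt n)⁻¹ • η) / b) ^ n :=
        ((hcs.comp (by fun_prop)).div_const b).pow n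
      exact this.measurable
  have hint := integrable_gauss (r := r) hκ0
  have hdct := tendsto_integral_filter_of_dominated_convergence (μ := (volume : Measure (Fin r → ℝ)))
    (F := F) (f := fun η => ((Real.exp (-quad u η) : ℝ) : ℂ))
    (fun η => Real.exp (-κ * ∑ j, η j ^ 2)) (Eventually.of_forall hmeas)
    (by
      filter_upwards [eventually_gt_atTop 0] with n hn
      exact Eventually.of_forall (hbd n hn)) hint (Eventually.of_forall hpt)
  have hle : ∀ η, Real.exp (-quad u η) ≤ Real.exp (-κ * ∑ j, η j ^ 2) := by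
    intro η
    have h1 := (hpt η).norm
    rw [norm_real, Real.norm_eq_abs, abs_of_pos (Real.exp_pos _)] at h1
    refine le_of_tendsto h1 ?_
    filter_upwards [eventually_gt_atTop 0] with n hn
    exact hbd n hn η
  have hcont : Continuous fun η : Fin r → ℝ => Real.exp (-quad u η) := by
    unfold quad lin
    fun_prop
  have hintq : Integrable (fun η : Fin r → ℝ => Real.exp (-quad u η)) := by
    refine hint.mono' hcont.aestronglyMeasurable (Eventually.of_forall fun η => ?_)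
    rw [Real.norm_eq_abs, abs_of_pos (Real.exp_pos _)]
    exact hle η
  refine ⟨∫ η : Fin r → ℝ, Real.exp (-quad u η), ?_, ?_⟩
  · rw [integral_pos_iff_support_of_nonneg (fun η => (Real.exp_pos _).le) hintq]
    have : Function.support (fun η : Fin r → ℝ => Real.exp (-quad u η)) = Set.univ := by
      ext η
      simp [(Real.exp_pos _).ne']
    rw [this]
    exact Measure.measure_univ_pos.2 (NeZero.ne _)
  · have e0 : ((∫ η : Fin r → ℝ, Real.exp (-quad u η) : ℝ) : ℂ) =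
        ∫ η : Fin r → ℝ, ((Real.exp (-quad u η) : ℝ) : ℂ) := integral_ofReal.symm
    rw [e0]
    refine hdct.congr fun n => ?_
    have h1 := Measure.integral_comp_inv_smul_of_nonneg (μ := (volume : Measure (Fin r → ℝ)))
      (fun θ : Fin r → ℝ => (cub θ : ℂ) * (cs u 1 θ / b) ^ n) (R := Real.sqrt n)
      (Real.sqrt_nonneg n)
    simp only [F]
    rw [h1, Module.finrank_fin_fun, walks_eq]
    have h2 : ∀ θ : Fin r → ℝ, (cub θ : ℂ) * (cs u 1 θ / b) ^ n =
        ((cub θ : ℂ) * cs u 1 θ ^ n) * (b ^ n)⁻¹ := by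
      intro θ
      rw [div_pow]
      ring
    simp only [h2]
    rw [integral_mul_const, real_smul]
    push_cast
    ring

end Pool.Agent.X297.GR
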